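import Mathlib

set_option autoImplicit false

open Cardinal Set

/-!
# Superclub implies an inseparable family with no Luzin subsequence

The proof only uses that there are `ℵ₁` infinite sets of the form `S α ⊆ α` such that every
uncountable subset of `ω₁` contains one of them (this follows from superclub, see `guess`).
The members of the family are graphs of functions `f α : ℕ → ℕ` with `f α m ≤ m`, built by
recursion on `α < ω₁`.
-/

namespace Pool.Agent.Results.MP_a36908_lc.SuperclubInseparable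

/-- The ordinal `ω₁`, as a well-ordered type: its members are the countable ordinals. -/
abbrev Om : Type := (ℵ₁ : Cardinal.{0}).ord.ToType

/-- `C` is a club subset of `ω₁`: unbounded, and containing every nonzero `a < ω₁` such that
`C ∩ a` is unbounded in `a`. -/
def IsClub (C : Set Om) : Prop :=
  (∀ a, ∃ c ∈ C, a < c) ∧
    ∀ a : Om, (∃ b, b < a) → (∀ b < a, ∃ c ∈ C, b < c ∧ c < a) → a ∈ C

/-- `Z` is a stationary subset of `ω₁`: it meets every club. -/
def IsStationary (Z : Set Om) : Prop := ∀ C, IsClub C → (Z ∩ C).Nonempty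

/-- `S` is a superclub sequence: `S α ⊆ α` for every `α < ω₁`, and every uncountable `A ⊆ ω₁` has
an uncountable subset `B` such that `{α : B ∩ α = S α}` is stationary. -/
def IsSuperclubSeq (S : Om → Set Om) : Prop :=
  (∀ a, S a ⊆ Iio a) ∧
    ∀ A : Set Om, ¬ A.Countable → ∃ B ⊆ A, ¬ B.Countable ∧ IsStationary {a | B ∩ Iio a = S a}

/-- Superclub: a superclub sequence exists. -/
def Superclub : Prop := ∃ S : Om → Set Om, IsSuperclubSeq S

/-- The family `A` of infinite subsets of `ω`, indexed by `ω₁`, is almost disjoint. -/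
def IsAlmostDisjoint (A : Om → Set ℕ) : Prop :=
  (∀ a, (A a).Infinite) ∧ ∀ a b, a ≠ b → (A a ∩ A b).Finite

/-- The infinite set `B` separates the family `A`: both `{β : A β ⊆* B}` and
`{β : A β ⊆* ω \ B}` have cardinality `ℵ₁`. -/
def Separates (B : Set ℕ) (A : Om → Set ℕ) : Prop :=
  B.Infinite ∧ #{b : Om | (A b \ B).Finite} = ℵ₁ ∧ #{b : Om | (A b \ Bᶜ).Finite} = ℵ₁

/-- `A` is inseparable: almost disjoint, and no infinite `B ⊆ ω` separates it. -/
def IsInseparable (A : Om → Set ℕ) : Prop :=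
  IsAlmostDisjoint A ∧ ∀ B, ¬ Separates B A

/-- `A` is a Luzin sequence: almost disjoint, and for all `α < ω₁` and `n < ω` only finitely many
`β < α` satisfy `A α ∩ A β ⊆ n`. -/
def IsLuzin (A : Om → Set ℕ) : Prop :=
  IsAlmostDisjoint A ∧ ∀ (a : Om) (n : ℕ), {b | b < a ∧ A a ∩ A b ⊆ Iio n}.Finite

/-- `A` contains a Luzin subsequence: for some uncountable `X ⊆ ω₁`, the subfamily indexed by `X`,
re-indexed by `ω₁` in the increasing order of `X`, is a Luzin sequence. -/
def ContainsLuzin (A : Om → Set ℕ) : Prop :=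
  ∃ X : Set Om, ¬ X.Countable ∧ ∃ e : Om ≃o X, IsLuzin (fun i => A (e i))

/-! ### One step of the recursion -/

/-- A finite approximation: a finite sequence `s` of length `k` with `s m ≤ m`, and a finite set
`E` (with at most `k` members) of functions to be avoided from now on. -/
structure Cond where
  k : ℕ
  s : ℕ → ℕ
  E : Finset (ℕ → ℕ)
  hs : ∀ m < k, s m ≤ m
  hE : E.card ≤ k

/-- `q` extends `p`. -/
def Ext (p q : Cond) : Prop :=
  p.k ≤ q.k ∧ (∀ m < p.k, q.s m = p.s m) ∧ p.E ⊆ q.E ∧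
    ∀ m, p.k ≤ m → m < q.k → ∀ h ∈ p.E, q.s m ≠ h m

lemma Ext.refl (p : Cond) : Ext p p :=
  ⟨le_rfl, fun _ _ => rfl, Finset.Subset.refl _, fun m h1 h2 => absurd h2 (by omega)⟩

lemma Ext.trans {p q r : Cond} (h1 : Ext p q) (h2 : Ext q r) : Ext p r := by
  refine ⟨h1.1.trans h2.1, ?_, h1.2.2.1.trans h2.2.2.1, ?_⟩
  · intro m hm
    rw [h2.2.1 m (lt_of_lt_of_le hm h1.1), h1.2.1 m hm]
  · intro m hm hm' h hh
    rcases lt_or_ge m q.k with h3 | h3
    · rw [h2.2.1 m h3]
      exact h1.2.2.2 m hm h3 h hh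
    · exact h2.2.2.2 m h3 hm' h (h1.2.2.1 hh)

/-- Extend by one given new value. -/
lemma ext_val (p : Cond) (v : ℕ) (hv : v ≤ p.k) (hv' : ∀ h ∈ p.E, v ≠ h p.k) :
    ∃ q, Ext p q ∧ q.k = p.k + 1 ∧ q.E = p.E ∧ q.s p.k = v := by
  classical
  refine ⟨⟨p.k + 1, fun m => if m = p.k then v else p.s m, p.E, ?_, ?_⟩, ⟨?_, ?_, ?_, ?_⟩, rfl, rfl,
    by simp⟩
  · intro m hm
    by_cases h : m = p.k
    · simp [h, hv]
    · simp only [h, if_false]
      exact p.hs m (by omega)
  · exact p.hE.trans (by omega)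
  · simp
  · intro m hm
    simp [hm.ne]
  · exact Finset.Subset.refl _
  · intro m h1 h2 h hh
    have : m = p.k := by
      simp only at h2
      omega
    subst this
    simp only [if_true]
    exact hv' h hh

/-- Extend by one. -/
lemma ext_one (p : Cond) : ∃ q, Ext p q ∧ q.k = p.k + 1 ∧ q.E = p.E := by
  classical
  have : ∃ v ∈ Finset.range (p.k + 1), v ∉ p.E.image (fun h => h p.k) := by
    by_contra hcon
    push Not at hcon
    have h1 : Finset.range (p.k + 1) ⊆ p.E.image (fun h => h p.k) := hcon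
    have h2 := Finset.card_le_card h1
    have h3 : (p.E.image (fun h => h p.k)).card ≤ p.E.card := Finset.card_image_le
    have h4 := p.hE
    simp only [Finset.card_range] at h2
    omega
  obtain ⟨v, hv, hv'⟩ := this
  obtain ⟨q, h1, h2, h3, -⟩ := ext_val p v (by simpa [Nat.lt_succ_iff] using hv) (by
    intro h hh heq
    exact hv' (Finset.mem_image.2 ⟨h, hh, heq.symm⟩))
  exact ⟨q, h1, h2, h3⟩

/-- Extend to a given length. -/
lemma ext_len (p : Cond) (n : ℕ) (hn : p.k ≤ n) : ∃ q, Ext p q ∧ q.k = n ∧ q.E = p.E := by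
  induction n, hn using Nat.le_induction with
  | base => exact ⟨p, Ext.refl p, rfl, rfl⟩
  | succ n _ ih =>
    obtain ⟨q, h1, h2, h3⟩ := ih
    obtain ⟨r, h4, h5, h6⟩ := ext_one q
    exact ⟨r, h1.trans h4, by omega, by rw [h6, h3]⟩

/-- Add a function to be avoided. -/
lemma ext_add (p : Cond) (h : ℕ → ℕ) (hp : p.E.card < p.k) :
    ∃ q, Ext p q ∧ q.k = p.k ∧ h ∈ q.E ∧ ∀ m < q.k, q.s m = p.s m := by
  classical
  refine ⟨⟨p.k, p.s, insert h p.E, p.hs, ?_⟩, ⟨le_rfl, fun _ _ => rfl, ?_, ?_⟩, rfl, ?_,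
    fun _ _ => rfl⟩
  · exact (Finset.card_insert_le _ _).trans (by omega)
  · exact Finset.subset_insert _ _
  · intro m h1 h2
    simp only at h2
    omega
  · exact Finset.mem_insert_self _ _

/-- Limit of an infinite family of bounded functions. -/
lemma exists_limit {ι : Type} (F : ι → ℕ → ℕ) (hF : ∀ i m, F i m ≤ m) (T : Set ι)
    (hT : T.Infinite) : ∃ g : ℕ → ℕ, ∀ N, {i | i ∈ T ∧ ∀ m < N, F i m = g m}.Infinite := by
  classical
  have : (Filter.cofinite ⊓ Filter.principal T).NeBot :=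
    Filter.cofinite_inf_principal_neBot_iff.2 hT
  let U : Ultrafilter ι := Ultrafilter.of (Filter.cofinite ⊓ Filter.principal T)
  have hU : (U : Filter ι) ≤ Filter.cofinite ⊓ Filter.principal T := Ultrafilter.of_le _
  have hval : ∀ m, ∃ v, {i | F i m = v} ∈ U := by
    intro m
    have h1 : (⋃ v ∈ (Iic m : Set ℕ), {i | F i m = v}) ∈ U := by
      have : (⋃ v ∈ (Iic m : Set ℕ), {i | F i m = v}) = Set.univ := by
        ext i
        simp [hF i m]
      rw [this]
      exact Filter.univ_mem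
    rw [Ultrafilter.finite_biUnion_mem_iff (Set.finite_Iic m)] at h1
    obtain ⟨v, -, hv⟩ := h1
    exact ⟨v, hv⟩
  choose g hg using hval
  refine ⟨g, fun N => ?_⟩
  have h1 : {i | ∀ m < N, F i m = g m} ∈ U := by
    have h2 : (⋂ m ∈ (Iio N : Set ℕ), {i | F i m = g m}) ∈ U :=
      (Filter.biInter_mem (Set.finite_Iio N)).2 (fun m _ => hg m)
    filter_upwards [h2] with i hi
    simpa using hi
  have h2 : T ∈ U := by
    have : (U : Filter ι) ≤ Filter.principal T := hU.trans inf_le_right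
    exact this (Filter.mem_principal_self T)
  intro hfin
  have h3 : {i | i ∈ T ∧ ∀ m < N, F i m = g m} ∈ U := Filter.inter_mem h2 h1
  have h4 : {i | i ∈ T ∧ ∀ m < N, F i m = g m}ᶜ ∈ U := by
    have : (U : Filter ι) ≤ Filter.cofinite := hU.trans inf_le_left
    exact this hfin.compl_mem_cofinite
  exact (Ultrafilter.compl_mem_iff_notMem.1 h4) h3

/-- A dependent sequence meeting countably many dense requirements. -/
lemma exists_generic {R : Type} [Countable R] [Nonempty R] (D : R → Cond → Prop)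
    (hD : ∀ r p, ∃ q, Ext p q ∧ D r q) :
    ∃ P : ℕ → Cond, (∀ i j, i ≤ j → Ext (P i) (P j)) ∧ ∀ r, ∃ i, D r (P i) := by
  classical
  obtain ⟨e, he⟩ := exists_surjective_nat R
  choose nx hnx hnx' using hD
  let P : ℕ → Cond := fun n => Nat.rec ⟨0, fun _ => 0, ∅, by simp, by simp⟩
    (fun n p => nx (e n) p) n
  have hP : ∀ n, P (n + 1) = nx (e n) (P n) := fun n => rfl
  refine ⟨P, ?_, ?_⟩
  · intro i j hij
    induction j, hij using Nat.le_induction with
    | base => exact Ext.refl _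
    | succ j _ ih =>
      rw [hP]
      exact ih.trans (hnx _ _)
  · intro r
    obtain ⟨n, rfl⟩ := he r
    exact ⟨n + 1, by rw [hP]; exact hnx' _ _⟩

/-- The one-step lemma. -/
lemma step {ι κ : Type} [Countable ι] [Countable κ] (F : ι → ℕ → ℕ) (hF : ∀ i m, F i m ≤ m)
    (hd : ∀ i j, i ≠ j → ∃ n, ∀ m ≥ n, F i m ≠ F j m) (T : κ → Set ι)
    (hT : ∀ x, (T x).Infinite) :
    ∃ f : ℕ → ℕ, (∀ m, f m ≤ m) ∧ (∀ i, ∃ n, ∀ m ≥ n, f m ≠ F i m) ∧
      ∀ x, (∃ n0, {i | i ∈ T x ∧ ∀ m ≥ n0, f m ≠ F i m}.Infinite) ∧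
        ∀ n, ∃ i ∈ T x, ∃ m ≥ n, f m = F i m := by
  classical
  choose g hg using fun x => exists_limit F hF (T x) (hT x)
  obtain ⟨e, he⟩ := exists_injective_nat ι
  let D : (ℕ ⊕ ι ⊕ κ ⊕ (κ × ℕ) ⊕ (κ × ℕ)) → Cond → Prop := fun r q =>
    match r with
    | Sum.inl n => n < q.k
    | Sum.inr (Sum.inl i) => F i ∈ q.E
    | Sum.inr (Sum.inr (Sum.inl x)) => g x ∈ q.E
    | Sum.inr (Sum.inr (Sum.inr (Sum.inl xN))) =>
        ∃ i ∈ T xN.1, xN.2 ≤ e i ∧ F i ∈ q.E ∧ ∀ m < q.k, q.s m = F i m → q.s m = g xN.1 m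
    | Sum.inr (Sum.inr (Sum.inr (Sum.inr xN))) =>
        ∃ i ∈ T xN.1, ∃ m, xN.2 ≤ m ∧ m < q.k ∧ q.s m = F i m
  have hD : ∀ r p, ∃ q, Ext p q ∧ D r q := by
    intro r p
    rcases r with n | i | x | ⟨x, N⟩ | ⟨x, N⟩
    · obtain ⟨q, h1, h2, -⟩ := ext_len p (max p.k (n + 1)) (le_max_left _ _)
      refine ⟨q, h1, ?_⟩
      show n < q.k
      rw [h2]
      have := le_max_right p.k (n + 1)
      omega
    · obtain ⟨q, h1, h2, h3⟩ := ext_one p
      obtain ⟨r, h4, -, h6, -⟩ := ext_add q (F i) (by rw [h3, h2]; have := p.hE; omega)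
      exact ⟨r, h1.trans h4, h6⟩
    · obtain ⟨q, h1, h2, h3⟩ := ext_one p
      obtain ⟨r, h4, -, h6, -⟩ := ext_add q (g x) (by rw [h3, h2]; have := p.hE; omega)
      exact ⟨r, h1.trans h4, h6⟩
    · obtain ⟨q, h1, h2, h3⟩ := ext_one p
      have hinf := hg x q.k
      have hfin : {i : ι | e i < N}.Finite := by
        have : {i : ι | e i < N} = e ⁻¹' (Iio N) := rfl
        rw [this]
        exact (Set.finite_Iio N).preimage he.injOn
      obtain ⟨i, hi1, hi2⟩ := (hinf.sdiff hfin).nonempty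
      obtain ⟨r, h4, h5, h6, h7⟩ := ext_add q (F i) (by rw [h3, h2]; have := p.hE; omega)
      refine ⟨r, h1.trans h4, i, hi1.1, ?_, h6, ?_⟩
      · simpa using hi2
      · intro m hm heq
        rw [heq]
        exact hi1.2 m (by rw [← h5]; exact hm)
    · -- the hitting requirement
      obtain ⟨G, hG1, hG2⟩ := (hT x).exists_subset_card_eq (p.E.card + 1)
      -- a bound beyond which the members of `G` have distinct values
      have hb : ∃ n, ∀ i ∈ G, ∀ j ∈ G, i ≠ j → ∀ m ≥ n, F i m ≠ F j m := by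
        choose b hb using hd
        let c : ι → ι → ℕ := fun i j => if h : i ≠ j then b i j h else 0
        refine ⟨G.sup (fun i => G.sup (fun j => c i j)), ?_⟩
        intro i hi j hj hij m hm
        apply hb i j hij m
        have h1 : c i j ≤ G.sup (fun j => c i j) := Finset.le_sup (f := fun j => c i j) hj
        have h2 : G.sup (fun j => c i j) ≤ G.sup (fun i => G.sup (fun j => c i j)) :=
          Finset.le_sup (f := fun i => G.sup (fun j => c i j)) hi
        have h3 : c i j = b i j hij := by simp [c, hij]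
        rw [← h3]
        exact (h1.trans h2).trans hm
      obtain ⟨n, hn⟩ := hb
      obtain ⟨q, h1, h2, h3⟩ := ext_len p (max p.k (max n N)) (le_max_left _ _)
      have hqn : n ≤ q.k := by
        rw [h2]; exact (le_max_left _ _).trans (le_max_right _ _)
      have hqN : N ≤ q.k := by
        rw [h2]; exact (le_max_right _ _).trans (le_max_right _ _)
      have hex : ∃ i ∈ G, ∀ h ∈ q.E, F i q.k ≠ h q.k := by
        by_contra hcon
        push Not at hcon
        have h4 : G.image (fun i => F i q.k) ⊆ q.E.image (fun h => h q.k) := by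
          intro v hv
          obtain ⟨i, hi, rfl⟩ := Finset.mem_image.1 hv
          obtain ⟨h, hh, heq⟩ := hcon i hi
          exact Finset.mem_image.2 ⟨h, hh, heq.symm⟩
        have h5 : (G.image (fun i => F i q.k)).card = G.card := by
          apply Finset.card_image_of_injOn
          intro i hi j hj heq
          by_contra hne
          exact hn i hi j hj hne q.k hqn heq
        have h6 := Finset.card_le_card h4
        have h7 : (q.E.image (fun h => h q.k)).card ≤ q.E.card := Finset.card_image_le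
        have h8 : q.E.card = p.E.card := by rw [h3]
        omega
      obtain ⟨i, hi, hi'⟩ := hex
      obtain ⟨r, h4, h5, -, h7⟩ := ext_val q (F i q.k) (hF _ _) hi'
      exact ⟨r, h1.trans h4, i, hG1 hi, q.k, hqN, by omega, h7⟩
  obtain ⟨P, hP, hP'⟩ := exists_generic D hD
  -- the generic function
  have hlen : ∀ m, ∃ i, m < (P i).k := fun m => hP' (Sum.inl m)
  choose a ha using hlen
  let f : ℕ → ℕ := fun m => (P (a m)).s m
  have hf : ∀ m i, m < (P i).k → f m = (P i).s m := by
    intro m i hi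
    rcases le_total i (a m) with h | h
    · exact (hP i (a m) h).2.1 m hi
    · exact ((hP (a m) i h).2.1 m (ha m)).symm
  have hav : ∀ i, ∀ h ∈ (P i).E, ∀ m ≥ (P i).k, f m ≠ h m := by
    intro i h hh m hm
    have h1 : i ≤ max i (a m) := le_max_left _ _
    have h2 : m < (P (max i (a m))).k := lt_of_lt_of_le (ha m) (hP _ _ (le_max_right _ _)).1
    rw [hf m _ h2]
    exact (hP i _ h1).2.2.2 m hm h2 h hh
  refine ⟨f, ?_, ?_, ?_⟩
  · intro m
    exact (P (a m)).hs m (ha m)
  · intro i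
    obtain ⟨j, hj⟩ := hP' (Sum.inr (Sum.inl i))
    exact ⟨(P j).k, fun m hm => hav j (F i) hj m hm⟩
  · intro x
    constructor
    · obtain ⟨j, hj⟩ := hP' (Sum.inr (Sum.inr (Sum.inl x)))
      refine ⟨(P j).k, ?_⟩
      have hsub : ∀ N, ∃ i, (i ∈ T x ∧ ∀ m ≥ (P j).k, f m ≠ F i m) ∧ N ≤ e i := by
        intro N
        obtain ⟨l, i, hi1, hi2, hi3, hi4⟩ := hP' (Sum.inr (Sum.inr (Sum.inr (Sum.inl (x, N)))))
        refine ⟨i, ⟨hi1, ?_⟩, hi2⟩
        intro m hm heq
        rcases lt_or_ge m (P l).k with h | h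
        · have h1 := hf m l h
          rw [h1] at heq
          have h2 := hi4 m h heq
          have h3 := hav j (g x) hj m hm
          rw [h1] at h3
          exact h3 h2
        · exact hav l (F i) hi3 m h heq
      intro hfin
      have hfin' : (e '' {i | i ∈ T x ∧ ∀ m ≥ (P j).k, f m ≠ F i m}).Finite := hfin.image e
      obtain ⟨M, hM⟩ := hfin'.bddAbove
      obtain ⟨i, hi, hi'⟩ := hsub (M + 1)
      have := hM ⟨i, hi, rfl⟩
      omega
    · intro n
      obtain ⟨l, i, hi1, m, hm1, hm2, hm3⟩ :=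
        hP' (Sum.inr (Sum.inr (Sum.inr (Sum.inr (x, n)))))
      refine ⟨i, hi1, m, hm1, ?_⟩
      rw [hf m l hm2]
      exact hm3

/-! ### The recursion -/

/-- What is required of the `a`-th function `x`, given the previous ones. -/
def Req (T : Om → Set Om) (a : Om) (prev : Om → ℕ → ℕ) (x : ℕ → ℕ) : Prop :=
  (∀ m, x m ≤ m) ∧ (∀ b < a, ∃ n, ∀ m ≥ n, x m ≠ prev b m) ∧
    ∀ ξ ≤ a, T ξ ⊆ Iio a → (T ξ).Infinite →
      (∃ n0, {b | b ∈ T ξ ∧ ∀ m ≥ n0, x m ≠ prev b m}.Infinite) ∧
        ∀ n, ∃ b ∈ T ξ, ∃ m ≥ n, x m = prev b m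

lemma Req.congr {T : Om → Set Om} {a : Om} {p p' : Om → ℕ → ℕ} {x : ℕ → ℕ}
    (h : ∀ b < a, p b = p' b) (hr : Req T a p x) : Req T a p' x := by
  refine ⟨hr.1, ?_, ?_⟩
  · intro b hb
    rw [← h b hb]
    exact hr.2.1 b hb
  · intro ξ hξ hT hinf
    obtain ⟨⟨n0, h1⟩, h2⟩ := hr.2.2 ξ hξ hT hinf
    refine ⟨⟨n0, ?_⟩, ?_⟩
    · refine h1.mono ?_
      rintro b ⟨hb, hb'⟩
      refine ⟨hb, ?_⟩
      rw [← h b (hT hb)]
      exact hb'
    · intro n
      obtain ⟨b, hb, m, hm, heq⟩ := h2 n
      refine ⟨b, hb, m, hm, ?_⟩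
      rw [← h b (hT hb)]
      exact heq

lemma countable_Iio (a : Om) : (Iio a).Countable := by
  have h : #(Iio a) < ℵ₁ := by
    have := Cardinal.mk_Iio_lt (α := Om) a (by simp)
    simpa using this
  have h2 : #(Iio a) < Order.succ ℵ₀ := by
    have h3 := Cardinal.succ_aleph0
    exact h.trans_eq h3.symm
  exact Cardinal.le_aleph0_iff_set_countable.1 (Order.lt_succ_iff.1 h2)

lemma countable_Iic (a : Om) : (Iic a).Countable := by
  have : Iic a = insert a (Iio a) := by
    ext x
    simp [le_iff_eq_or_lt]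
  rw [this]
  exact (countable_Iio a).insert a

lemma exists_family (T : Om → Set Om) : ∃ f : Om → ℕ → ℕ, ∀ a, Req T a f (f a) := by
  classical
  let G : (a : Om) → ((b : Om) → b < a → ℕ → ℕ) → ℕ → ℕ := fun a prev =>
    if h : ∃ x, Req T a (fun b => if hb : b < a then prev b hb else fun _ => 0) x
    then h.choose else fun _ => 0
  let f : Om → ℕ → ℕ := (wellFounded_lt (α := Om)).fix G
  have hf : ∀ a, f a = G a (fun b _ => f b) := fun a => (wellFounded_lt (α := Om)).fix_eq G a
  refine ⟨f, fun a => ?_⟩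
  induction a using WellFoundedLT.induction with
  | ind a ih =>
    have hex : ∃ x, Req T a (fun b => if _ : b < a then f b else fun _ => 0) x := by
      have : Countable (Iio a) := (countable_Iio a).to_subtype
      have : Countable {ξ : Om // ξ ≤ a ∧ T ξ ⊆ Iio a ∧ (T ξ).Infinite} := by
        have : Countable (Iic a) := (countable_Iic a).to_subtype
        refine Function.Injective.countable
          (f := fun ξ : {ξ : Om // ξ ≤ a ∧ T ξ ⊆ Iio a ∧ (T ξ).Infinite} =>
            (⟨ξ.1, ξ.2.1⟩ : Iic a)) ?_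
        intro ξ η h
        apply Subtype.ext
        exact congrArg (fun z : Iic a => z.1) h
      obtain ⟨x, hx1, hx2, hx3⟩ := step (ι := Iio a)
        (κ := {ξ : Om // ξ ≤ a ∧ T ξ ⊆ Iio a ∧ (T ξ).Infinite})
        (fun b => f b.1) (fun b m => (ih b.1 b.2).1 m)
        (by
          intro b c hbc
          have hne : b.1 ≠ c.1 := fun h => hbc (Subtype.ext h)
          rcases lt_or_gt_of_ne hne with h | h
          · obtain ⟨n, hn⟩ := (ih c.1 c.2).2.1 b.1 h
            exact ⟨n, fun m hm => (hn m hm).symm⟩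
          · exact (ih b.1 b.2).2.1 c.1 h)
        (fun ξ => {b | b.1 ∈ T ξ.1})
        (by
          intro ξ
          have h1 : (T ξ.1).Infinite := ξ.2.2.2
          intro hfin
          apply h1
          have h2 : ((fun b : Iio a => b.1) '' {b | b.1 ∈ T ξ.1}).Finite := hfin.image _
          refine h2.subset ?_
          intro b hb
          exact ⟨⟨b, ξ.2.2.1 hb⟩, hb, rfl⟩)
      refine ⟨x, hx1, ?_, ?_⟩
      · intro b hb
        simp only [hb, dif_pos]
        exact hx2 ⟨b, hb⟩
      · intro ξ hξ hT hinf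
        obtain ⟨⟨n0, h1⟩, h2⟩ := hx3 ⟨ξ, hξ, hT, hinf⟩
        refine ⟨⟨n0, ?_⟩, ?_⟩
        · have h3 := h1.image (f := fun b : Iio a => b.1) (Subtype.val_injective.injOn)
          refine h3.mono ?_
          rintro b ⟨⟨b', hb'⟩, ⟨h4, h5⟩, rfl⟩
          refine ⟨h4, ?_⟩
          have : b' < a := hb'
          simp only [this, dif_pos]
          exact h5
        · intro n
          obtain ⟨⟨b, hb⟩, hb', m, hm, heq⟩ := h2 n
          refine ⟨b, hb', m, hm, ?_⟩
          have : b < a := hb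
          simp only [this, dif_pos]
          exact heq
    have h1 : f a = hex.choose := by
      rw [hf a]
      simp only [G]
      rw [dif_pos hex]
    have h2 := hex.choose_spec
    rw [← h1] at h2
    refine h2.congr ?_
    intro b hb
    simp [hb]

/-! ### Uncountable subsets of `ω₁` -/

lemma uncountable_univ : ¬ (Set.univ : Set Om).Countable := by
  rw [← Cardinal.le_aleph0_iff_set_countable]
  simp only [Cardinal.mk_univ, Cardinal.mk_toType, Cardinal.card_ord]
  rw [not_le, ← Cardinal.succ_aleph0]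
  exact Order.lt_succ _

lemma exists_inf_countable {X : Set Om} (hX : X.Infinite) :
    ∃ Y ⊆ X, Y.Infinite ∧ Y.Countable := by
  let g := hX.natEmbedding
  refine ⟨range (fun n => (g n).1), ?_, ?_, countable_range _⟩
  · rintro _ ⟨n, rfl⟩
    exact (g n).2
  · exact Set.infinite_range_of_injective (Subtype.val_injective.comp g.injective)

lemma exists_bound {X : Set Om} (hX : X.Countable) : ∃ a, ∀ x ∈ X, x < a := by
  by_contra hcon
  push Not at hcon
  apply uncountable_univ
  have : (⋃ x ∈ X, Iic x).Countable := hX.biUnion (fun x _ => countable_Iic x)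
  refine this.mono ?_
  intro a _
  obtain ⟨x, hx, hx'⟩ := hcon a
  exact mem_biUnion hx hx'

lemma exists_gt_mem {X : Set Om} (hX : ¬ X.Countable) (a : Om) : ∃ x ∈ X, a < x := by
  by_contra hcon
  push Not at hcon
  exact hX ((countable_Iic a).mono hcon)

/-- Every uncountable set contains an infinite member of a superclub sequence. -/
lemma guess {S : Om → Set Om} (hS : IsSuperclubSeq S) {A : Set Om} (hA : ¬ A.Countable) :
    ∃ ξ, S ξ ⊆ A ∧ (S ξ).Infinite := by
  obtain ⟨B, hBA, hB, hst⟩ := hS.2 A hA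
  have hBinf : B.Infinite := fun h => hB h.countable
  obtain ⟨Y, hYB, hYinf, hYc⟩ := exists_inf_countable hBinf
  obtain ⟨a0, ha0⟩ := exists_bound hYc
  have hclub : IsClub {a | (B ∩ Iio a).Infinite} := by
    refine ⟨?_, ?_⟩
    · intro a
      obtain ⟨c, -, hc⟩ := exists_gt_mem uncountable_univ (max a a0)
      refine ⟨c, ?_, (le_max_left _ _).trans_lt hc⟩
      refine hYinf.mono ?_
      intro y hy
      exact ⟨hYB hy, (ha0 y hy).trans ((le_max_right _ _).trans_lt hc)⟩
    · rintro a ⟨b, hb⟩ h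
      obtain ⟨c, hc, -, hca⟩ := h b hb
      exact hc.mono (inter_subset_inter_right _ (Iio_subset_Iio hca.le))
  obtain ⟨ξ, hξ1, hξ2⟩ := hst _ hclub
  simp only [mem_ofPred_eq] at hξ1 hξ2
  refine ⟨ξ, ?_, ?_⟩
  · rw [← hξ1]
    exact inter_subset_left.trans hBA
  · rw [← hξ1]
    exact hξ2

/-- The subset of `ω` coding the graph of a function. -/
def code (f : ℕ → ℕ) : Set ℕ := range (fun m => Nat.pair m (f m))

lemma code_inter {f g : ℕ → ℕ} {x : ℕ} (hx : x ∈ code f ∩ code g) :
    ∃ m, x = Nat.pair m (f m) ∧ f m = g m := by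
  obtain ⟨⟨m, rfl⟩, ⟨m', hm'⟩⟩ := hx
  have := Nat.pair_eq_pair.1 hm'
  obtain ⟨rfl, h⟩ := this
  exact ⟨m', rfl, h.symm⟩

lemma code_infinite (f : ℕ → ℕ) : (code f).Infinite := by
  apply Set.infinite_range_of_injective
  intro a b h
  exact (Nat.pair_eq_pair.1 h).1

/-- **Superclub implies that there is an inseparable family with no Luzin subsequence.** -/
theorem result : Superclub → ∃ A : Om → Set ℕ, IsInseparable A ∧ ¬ ContainsLuzin A := by
  classical
  rintro ⟨S, hS⟩
  obtain ⟨f, hf⟩ := exists_family S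
  have had : IsAlmostDisjoint (fun a => code (f a)) := by
    refine ⟨fun a => code_infinite _, ?_⟩
    have key : ∀ a b, b < a → (code (f a) ∩ code (f b)).Finite := by
      intro a b hab
      obtain ⟨n, hn⟩ := (hf a).2.1 b hab
      refine ((Set.finite_Iio n).image (fun m => Nat.pair m (f a m))).subset ?_
      intro x hx
      obtain ⟨m, rfl, hm⟩ := code_inter hx
      refine ⟨m, ?_, rfl⟩
      by_contra hcon
      exact hn m (by simpa using hcon) hm
    intro a b hab
    rcases lt_or_gt_of_ne hab with h | h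
    · rw [inter_comm]
      exact key b a h
    · exact key a b h
  refine ⟨fun a => code (f a), ⟨had, ?_⟩, ?_⟩
  · -- inseparability
    rintro B ⟨-, hU, hW⟩
    have hunc : ∀ Z : Set Om, #Z = ℵ₁ → ¬ Z.Countable := by
      intro Z hZ hc
      rw [← Cardinal.le_aleph0_iff_set_countable, hZ, ← Cardinal.succ_aleph0] at hc
      exact absurd hc (not_le.2 (Order.lt_succ _))
    have hU' := hunc _ hU
    have hW' := hunc _ hW
    have hpig : ∃ n, ¬ {b : Om | code (f b) \ B ⊆ Iio n}.Countable := by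
      by_contra hcon
      push Not at hcon
      apply hU'
      refine (countable_iUnion hcon).mono ?_
      intro b hb
      have hb' : (code (f b) \ B).Finite := hb
      obtain ⟨M, hM⟩ := hb'.bddAbove
      refine mem_iUnion.2 ⟨M + 1, ?_⟩
      intro x hx
      exact Nat.lt_succ_of_le (hM hx)
    obtain ⟨n, hn⟩ := hpig
    obtain ⟨ξ, hξ1, hξ2⟩ := guess hS hn
    obtain ⟨a, haW, haξ⟩ := exists_gt_mem hW' ξ
    have haW' : (code (f a) \ Bᶜ).Finite := haW
    obtain ⟨M, hM⟩ := haW'.bddAbove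
    have hsub : S ξ ⊆ Iio a := (hS.1 ξ).trans (Iio_subset_Iio haξ.le)
    obtain ⟨b, hb, m, hm, heq⟩ := ((hf a).2.2 ξ haξ.le hsub hξ2).2 (max n (M + 1))
    have hxa : Nat.pair m (f a m) ∈ code (f a) := ⟨m, rfl⟩
    have hxb : Nat.pair m (f a m) ∈ code (f b) := ⟨m, by simp [heq]⟩
    have hle : m ≤ Nat.pair m (f a m) := Nat.left_le_pair _ _
    by_cases hxB : Nat.pair m (f a m) ∈ B
    · have h1 : Nat.pair m (f a m) ≤ M := hM ⟨hxa, by simpa using hxB⟩
      have h2 : M + 1 ≤ m := (le_max_right _ _).trans hm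
      omega
    · have h1 : Nat.pair m (f a m) ∈ Iio n := hξ1 hb ⟨hxb, hxB⟩
      have h2 : n ≤ m := (le_max_left _ _).trans hm
      simp only [mem_Iio] at h1
      omega
  · -- no Luzin subsequence
    rintro ⟨X, hX, e, -, hL⟩
    obtain ⟨ξ, hξ1, hξ2⟩ := guess hS hX
    obtain ⟨a, haX, haξ⟩ := exists_gt_mem hX ξ
    have hsub : S ξ ⊆ Iio a := (hS.1 ξ).trans (Iio_subset_Iio haξ.le)
    obtain ⟨n0, hinf⟩ := ((hf a).2.2 ξ haξ.le hsub hξ2).1
    obtain ⟨N, hN⟩ : ∃ N, ∀ m < n0, Nat.pair m (f a m) < N := by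
      have : ((fun m => Nat.pair m (f a m)) '' Iio n0).Finite := (Set.finite_Iio n0).image _
      obtain ⟨M, hM⟩ := this.bddAbove
      exact ⟨M + 1, fun m hm => Nat.lt_succ_of_le (hM ⟨m, hm, rfl⟩)⟩
    have hfin := hL (e.symm ⟨a, haX⟩) N
    apply hinf
    have h1 := hfin.image (fun i => (e i).1)
    refine h1.subset ?_
    rintro b ⟨hb, hb'⟩
    have hbX : b ∈ X := hξ1 hb
    refine ⟨e.symm ⟨b, hbX⟩, ⟨?_, ?_⟩, by simp⟩
    · apply e.symm.strictMono
      exact hsub hb
    · simp only [OrderIso.apply_symm_apply]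
      intro x hx
      obtain ⟨m, rfl, hm⟩ := code_inter hx
      apply hN
      by_contra hcon
      exact hb' m (by simpa using hcon) hm

end Pool.Agent.Results.MP_a36908_lc.SuperclubInseparable
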